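import Mathlib

set_option autoImplicit false

namespace Pool.Agent.H721Z.RS

open Finset

/-- coordinate form of the property, centre at the origin, squared radius `q` -/
def Pq (d : ℕ) (q : ℝ) : Prop :=
  ∃ X : Set (Fin d → ℝ), X.Infinite ∧ (∀ x ∈ X, ∑ i, x i ^ 2 = q) ∧
    (∀ x ∈ X, ∀ y ∈ X, ∃ r : ℚ, ∑ i, (x i - y i) ^ 2 = (r : ℝ) ^ 2) ∧
    ∀ (a : Fin d → ℝ) (b : ℝ), (∀ x ∈ X, ∑ i, a i * x i = b) → a = 0

theorem base (q : ℚ) (hq : 0 < q) : Pq 2 q := by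
  obtain ⟨ρ, hρ0, hρ⟩ : ∃ ρ : ℝ, 0 < ρ ∧ ρ ^ 2 = q :=
    ⟨√q, Real.sqrt_pos.2 (by exact_mod_cast hq), Real.sq_sqrt (by exact_mod_cast hq.le)⟩
  let t : ℕ → ℚ := fun n => q + 1 + n
  let c : ℕ → ℚ := fun n => (t n ^ 2 - q) / (t n ^ 2 + q)
  let s : ℕ → ℚ := fun n => 2 * t n / (t n ^ 2 + q)
  have ht : ∀ n, 0 < t n := fun n => by simp only [t]; positivity
  have hden : ∀ n, 0 < t n ^ 2 + q := fun n => by have := ht n; positivity
  have hc : ∀ n, 0 < c n := fun n => by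
    refine div_pos ?_ (hden n)
    have : (0 : ℚ) ≤ n := Nat.cast_nonneg n
    simp only [t]; nlinarith
  have hcs : ∀ n, c n ^ 2 + q * s n ^ 2 = 1 := fun n => by
    have := (hden n).ne'
    simp only [c, s]; field_simp; ring
  have hcs' : ∀ n, (c n : ℝ) ^ 2 + ρ ^ 2 * (s n : ℝ) ^ 2 = 1 := fun n => by
    rw [hρ]; exact_mod_cast hcs n
  let p : ℕ → Fin 2 → ℝ := fun n => ![ρ * (2 * (c n : ℝ) ^ 2 - 1), 2 * ρ ^ 2 * c n * s n]
  have hinj : Function.Injective p := by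
    intro n m h
    have h0 := congrFun h 0
    simp only [p, Matrix.cons_val_zero] at h0
    have h1 : (c n : ℝ) ^ 2 = (c m : ℝ) ^ 2 := by
      have := mul_left_cancel₀ hρ0.ne' h0
      linarith
    have h2 : c n ^ 2 = c m ^ 2 := by exact_mod_cast h1
    have h3 : c n = c m := (pow_left_inj₀ (hc n).le (hc m).le two_ne_zero).1 h2
    simp only [c] at h3
    rw [div_eq_div_iff (hden n).ne' (hden m).ne'] at h3
    have h4 : t n ^ 2 = t m ^ 2 := by
      have : q * (t n ^ 2 - t m ^ 2) = 0 := by linarith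
      have := (mul_eq_zero.1 this).resolve_left hq.ne'
      linarith
    have h5 : t n = t m := (pow_left_inj₀ (ht n).le (ht m).le two_ne_zero).1 h4
    simp only [t] at h5
    exact_mod_cast add_left_cancel h5
  have hsph : ∀ x ∈ Set.range p, ∑ i, x i ^ 2 = (q : ℝ) := by
    rintro _ ⟨n, rfl⟩
    simp only [p, Fin.sum_univ_two, Matrix.cons_val_zero, Matrix.cons_val_one]
    rw [← hρ]
    linear_combination (4 * ρ ^ 2 * (c n : ℝ) ^ 2) * hcs' n
  refine ⟨Set.range p, Set.infinite_range_of_injective hinj, hsph, ?_, ?_⟩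
  · rintro _ ⟨n, rfl⟩ _ ⟨m, rfl⟩
    refine ⟨2 * q * (s n * c m - c n * s m), ?_⟩
    simp only [p, Fin.sum_univ_two, Matrix.cons_val_zero, Matrix.cons_val_one]
    push_cast
    rw [← hρ]
    linear_combination (4 * ρ ^ 2 * ((c n : ℝ) ^ 2 - (c m : ℝ) ^ 2)) * hcs' n -
      (4 * ρ ^ 2 * ((c n : ℝ) ^ 2 - (c m : ℝ) ^ 2)) * hcs' m
  · intro a b h
    by_contra ha
    have hN : 0 < a 0 ^ 2 + a 1 ^ 2 := by
      by_contra hc
      apply ha
      ext i
      fin_cases i <;> simp <;> nlinarith [sq_nonneg (a 0), sq_nonneg (a 1)]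
    apply Set.infinite_range_of_injective hinj
    let g : ℝ → Fin 2 → ℝ := fun u =>
      ![(b * a 0 - u * a 1) / (a 0 ^ 2 + a 1 ^ 2), (b * a 1 + u * a 0) / (a 0 ^ 2 + a 1 ^ 2)]
    set w := √((a 0 ^ 2 + a 1 ^ 2) * q - b ^ 2)
    refine ((Set.toFinite ({w, -w} : Set ℝ)).image g).subset ?_
    intro x hx
    have h1 := h x hx
    have h2 := hsph x hx
    simp only [Fin.sum_univ_two] at h1 h2
    refine ⟨a 0 * x 1 - a 1 * x 0, ?_, ?_⟩
    · have : (a 0 * x 1 - a 1 * x 0) ^ 2 = (a 0 ^ 2 + a 1 ^ 2) * q - b ^ 2 := by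
        rw [← h1, ← h2]; ring
      have h3 : w = |a 0 * x 1 - a 1 * x 0| := by
        simp only [w]; rw [← this, Real.sqrt_sq_eq_abs]
      rw [h3]
      rcases abs_cases (a 0 * x 1 - a 1 * x 0) with e | e <;> simp [e.1]
    · ext i
      fin_cases i <;> simp only [g] <;> simp <;> rw [div_eq_iff hN.ne', ← h1] <;> ring

theorem step (d : ℕ) (ih : ∀ q : ℚ, 0 < q → Pq d q) (q : ℚ) (hq : 0 < q) : Pq (d + 1) q := by
  obtain ⟨ρ, hρ0, hρ⟩ : ∃ ρ : ℝ, 0 < ρ ∧ ρ ^ 2 = q :=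
    ⟨√q, Real.sqrt_pos.2 (by exact_mod_cast hq), Real.sq_sqrt (by exact_mod_cast hq.le)⟩
  let e : ℚ := q / (q + 1)
  have he : 0 < e := by positivity
  have he2 : e ^ 2 < 4 * q := by
    simp only [e]
    rw [div_pow, div_lt_iff₀ (by positivity)]
    nlinarith [mul_pos hq hq, mul_pos hq (mul_pos hq hq)]
  have hq' : 0 < e ^ 2 - e ^ 4 / (4 * q) := by
    rw [sub_pos, div_lt_iff₀ (by positivity)]
    nlinarith [pow_pos he 2]
  obtain ⟨X, hX, hs, hr, hh⟩ := ih _ hq'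
  push_cast at hs
  rw [← hρ] at hs
  set h : ℝ := ρ - (e : ℝ) ^ 2 / (2 * ρ) with hhdef
  let L : (Fin d → ℝ) → Fin (d + 1) → ℝ := fun x => Fin.cons h x
  let y0 : Fin (d + 1) → ℝ := Fin.cons ρ 0
  have hL : Function.Injective L := fun x y hxy => (Fin.cons_injective2 hxy).2
  have key : ∀ x ∈ X, (h - ρ) ^ 2 + ∑ i, x i ^ 2 = (e : ℝ) ^ 2 := by
    intro x hx
    rw [hs x hx, hhdef]; field_simp; ring
  refine ⟨insert y0 (L '' X), (hX.image hL.injOn).mono (Set.subset_insert _ _), ?_, ?_, ?_⟩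
  · rintro _ (rfl | ⟨x, hx, rfl⟩)
    · simp [y0, Fin.sum_univ_succ, hρ]
    · simp only [L, Fin.sum_univ_succ, Fin.cons_zero, Fin.cons_succ]
      rw [hs x hx, ← hρ, hhdef]; field_simp; ring
  · rintro _ (rfl | ⟨x, hx, rfl⟩) _ (rfl | ⟨y, hy, rfl⟩)
    · exact ⟨0, by simp⟩
    · refine ⟨e, ?_⟩
      rw [← key y hy]
      simp only [L, y0, Fin.sum_univ_succ, Fin.cons_zero, Fin.cons_succ, Pi.zero_apply, zero_sub,
        even_two, Even.neg_pow]
      ring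
    · refine ⟨e, ?_⟩
      rw [← key x hx]
      simp only [L, y0, Fin.sum_univ_succ, Fin.cons_zero, Fin.cons_succ, Pi.zero_apply, sub_zero]
    · obtain ⟨r, hr⟩ := hr x hx y hy
      exact ⟨r, by simp [L, Fin.sum_univ_succ, hr]⟩
  · intro a b hab
    have h1 : (fun i : Fin d => a i.succ) = 0 := hh _ (b - a 0 * h) fun x hx => by
      have := hab (L x) (Or.inr ⟨x, hx, rfl⟩)
      simp only [L, Fin.sum_univ_succ, Fin.cons_zero, Fin.cons_succ] at this
      linarith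
    have h2 : ∀ i : Fin d, a i.succ = 0 := fun i => congrFun h1 i
    obtain ⟨x, hx⟩ := hX.nonempty
    have h3 := hab (L x) (Or.inr ⟨x, hx, rfl⟩)
    have h4 := hab y0 (Or.inl rfl)
    simp only [L, y0, Fin.sum_univ_succ, Fin.cons_zero, Fin.cons_succ, h2, zero_mul,
      sum_const_zero, add_zero] at h3 h4
    have h5 : a 0 * ((e : ℝ) ^ 2 / (2 * ρ)) = 0 := by rw [hhdef] at h3; linarith
    have h6 : (0 : ℝ) < (e : ℝ) ^ 2 / (2 * ρ) := by
      have : (0 : ℝ) < e := by exact_mod_cast he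
      positivity
    have h7 := (mul_eq_zero.1 h5).resolve_right h6.ne'
    ext i
    refine Fin.cases h7 h2 i

theorem all (d : ℕ) (hd : 2 ≤ d) : ∀ q : ℚ, 0 < q → Pq d q := by
  induction d, hd using Nat.le_induction with
  | base => exact base
  | succ d _ ih => exact step d ih

theorem suff (d : ℕ) (hd : 2 ≤ d) (ρ : ℝ) (hρ : 0 < ρ) (q : ℚ) (hq : ρ ^ 2 = q)
    (c : EuclideanSpace ℝ (Fin d)) :
    ∃ X : Set (EuclideanSpace ℝ (Fin d)), X ⊆ Metric.sphere c ρ ∧ X.Infinite ∧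
      (∀ x ∈ X, ∀ y ∈ X, x ≠ y → ∃ r : ℚ, dist x y = r) ∧
      ¬ ∃ (a : EuclideanSpace ℝ (Fin d)) (b : ℝ), a ≠ 0 ∧ ∀ x ∈ X, inner ℝ a x = b := by
  obtain ⟨X, hX, hs, hr, hh⟩ := all d hd q (by
    have : (0 : ℝ) < q := by rw [← hq]; positivity
    exact_mod_cast this)
  let T : (Fin d → ℝ) → EuclideanSpace ℝ (Fin d) := fun x => c + WithLp.toLp 2 x
  have hT : Function.Injective T := fun x y h => by simpa [T] using h
  refine ⟨T '' X, ?_, hX.image hT.injOn, ?_, ?_⟩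
  · rintro _ ⟨x, hx, rfl⟩
    simp only [T, mem_sphere_iff_norm, add_sub_cancel_left, EuclideanSpace.norm_eq,
      Real.norm_eq_abs, sq_abs]
    rw [hs x hx, ← hq, Real.sqrt_sq hρ.le]
  · rintro _ ⟨x, hx, rfl⟩ _ ⟨y, hy, rfl⟩ -
    obtain ⟨r, hr⟩ := hr x hx y hy
    refine ⟨|r|, ?_⟩
    simp only [T, dist_add_left, EuclideanSpace.dist_eq, Real.dist_eq, sq_abs]
    rw [hr, Real.sqrt_sq_eq_abs]; simp
  · rintro ⟨a, b, ha, h⟩
    apply ha
    have := hh (fun i => a i) (b - inner ℝ a c) fun x hx => by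
      have := h _ ⟨x, hx, rfl⟩
      simp only [T, inner_add_right] at this
      rw [← this]
      simp [PiLp.inner_apply, mul_comm]
    ext i
    exact congrFun this i

theorem nec_dim (ρ : ℝ) (c : EuclideanSpace ℝ (Fin 1)) : (Metric.sphere c ρ).Finite := by
  refine ((Set.toFinite ({ρ, -ρ} : Set ℝ)).image
    (fun u => c + WithLp.toLp 2 (fun _ : Fin 1 => u))).subset ?_
  intro x hx
  rw [mem_sphere_iff_norm, EuclideanSpace.norm_eq] at hx
  simp only [univ_unique, sum_singleton, Real.norm_eq_abs, sq_abs, Real.sqrt_sq_eq_abs] at hx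
  refine ⟨(x - c) default, ?_, ?_⟩
  · rcases abs_cases ((x - c) default) with e | e
    · exact Or.inl (by linarith [e.1])
    · exact Or.inr (by rw [Set.mem_singleton_iff]; linarith [e.1])
  · ext i
    rw [Subsingleton.elim i default]
    simp

theorem nec_rat {E : Type} [NormedAddCommGroup E] [InnerProductSpace ℝ E] [FiniteDimensional ℝ E]
    (ρ : ℝ) (c : E) (X : Set E) (hX : X ⊆ Metric.sphere c ρ) (hne : X.Nonempty)
    (hr : ∀ x ∈ X, ∀ y ∈ X, x ≠ y → ∃ r : ℚ, dist x y = r)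
    (hh : ¬ ∃ (a : E) (b : ℝ), a ≠ 0 ∧ ∀ x ∈ X, inner ℝ a x = b) : ∃ q : ℚ, ρ ^ 2 = q := by
  classical
  obtain ⟨x0, hx0⟩ := hne
  have hr' : ∀ x ∈ X, ∀ y ∈ X, ∃ r : ℚ, ‖x - y‖ = r := by
    intro x hx y hy
    by_cases e : x = y
    · exact ⟨0, by simp [e]⟩
    · simpa [dist_eq_norm] using hr x hx y hy e
  set D : Set E := (fun x => x - x0) '' X
  have hspan : Submodule.span ℝ D = ⊤ := by
    rw [← Submodule.orthogonal_eq_bot_iff, eq_bot_iff]
    intro a ha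
    by_contra h0
    refine hh ⟨a, inner ℝ a x0, h0, fun x hx => ?_⟩
    have := (Submodule.mem_orthogonal' _ _).1 ha (x - x0) (Submodule.subset_span ⟨x, hx, rfl⟩)
    rw [inner_sub_right] at this
    linarith
  obtain ⟨B, hBD, hBs, hBl⟩ := exists_linearIndependent ℝ D
  have : Fintype B := hBl.setFinite.fintype
  have hG : ∀ i j : B, ∃ r : ℚ, inner ℝ (i : E) (j : E) = (r : ℝ) := by
    intro i j
    obtain ⟨x, hx, ex⟩ := hBD i.2
    obtain ⟨y, hy, ey⟩ := hBD j.2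
    obtain ⟨r1, h1⟩ := hr' x hx x0 hx0
    obtain ⟨r2, h2⟩ := hr' y hy x0 hx0
    obtain ⟨r3, h3⟩ := hr' x hx y hy
    refine ⟨(r1 ^ 2 + r2 ^ 2 - r3 ^ 2) / 2, ?_⟩
    have := norm_sub_sq_real (x - x0) (y - x0)
    rw [sub_sub_sub_cancel_right, h1, h2, h3] at this
    rw [← ex, ← ey]
    push_cast
    linarith
  choose G hG using hG
  have hβ : ∀ i : B, inner ℝ (i : E) (c - x0) = ((G i i / 2 : ℚ) : ℝ) := by
    intro i
    obtain ⟨x, hx, ex⟩ := hBD i.2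
    have h1 := norm_sub_sq_real (x - x0) (c - x0)
    have h2 : ‖x - c‖ = ρ := mem_sphere_iff_norm.1 (hX hx)
    have h3 : ‖c - x0‖ = ρ := by rw [norm_sub_rev]; exact mem_sphere_iff_norm.1 (hX hx0)
    rw [sub_sub_sub_cancel_right, h2, h3] at h1
    push_cast
    rw [← hG, ← ex, real_inner_self_eq_norm_sq]
    simp only []
    linarith
  obtain ⟨t, ht⟩ : ∃ t : B → ℝ, ∑ i, t i • (i : E) = c - x0 := by
    rw [← Submodule.mem_span_range_iff_exists_fun, Subtype.range_coe, hBs, hspan]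
    trivial
  let GQ : Matrix B B ℚ := Matrix.of G
  have hgram : Matrix.gram ℝ (fun i : B => (i : E)) = GQ.map (Rat.castHom ℝ) := by
    ext i j; simp [GQ, hG]
  have hdet : (Matrix.gram ℝ (fun i : B => (i : E))).det ≠ 0 :=
    Matrix.det_gram_ne_zero_iff_linearIndependent.2 hBl
  have hdetQ : GQ.det ≠ 0 := by
    intro h
    apply hdet
    rw [hgram, ← RingHom.mapMatrix_apply, ← RingHom.map_det, h, map_zero]
  obtain ⟨t', ht'⟩ : ∃ t' : B → ℚ, GQ.mulVec t' = fun i => G i i / 2 :=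
    (Matrix.mulVec_surjective_iff_isUnit.2
      ((Matrix.isUnit_iff_isUnit_det _).2 (isUnit_iff_ne_zero.2 hdetQ))) _
  have htt : t = fun i => (t' i : ℝ) := by
    apply Matrix.mulVec_injective_iff_isUnit.2
      ((Matrix.isUnit_iff_isUnit_det _).2 (isUnit_iff_ne_zero.2 hdet))
    ext i
    have e1 : (Matrix.gram ℝ (fun i : B => (i : E))).mulVec t i = ((G i i / 2 : ℚ) : ℝ) := by
      rw [← hβ, ← ht, inner_sum]
      simp [Matrix.mulVec, dotProduct, inner_smul_right, mul_comm]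
    rw [e1, ← congrFun ht' i, hgram]
    simp [Matrix.mulVec, dotProduct]
  refine ⟨∑ i, t' i * (G i i / 2), ?_⟩
  have h3 : ‖c - x0‖ = ρ := by rw [norm_sub_rev]; exact mem_sphere_iff_norm.1 (hX hx0)
  rw [← h3, ← real_inner_self_eq_norm_sq]
  nth_rewrite 1 [← ht]
  rw [sum_inner]
  simp only [real_inner_smul_left, hβ, htt]
  push_cast
  rfl

theorem main (d : ℕ) (hd : 1 ≤ d) (ρ : ℝ) (hρ : 0 < ρ) (c : EuclideanSpace ℝ (Fin d)) :
    (∃ X : Set (EuclideanSpace ℝ (Fin d)), X ⊆ Metric.sphere c ρ ∧ X.Infinite ∧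
      (∀ x ∈ X, ∀ y ∈ X, x ≠ y → ∃ r : ℚ, dist x y = r) ∧
      ¬ ∃ (a : EuclideanSpace ℝ (Fin d)) (b : ℝ), a ≠ 0 ∧ ∀ x ∈ X, inner ℝ a x = b) ↔
    (2 ≤ d ∧ ∃ q : ℚ, ρ ^ 2 = q) := by
  constructor
  · rintro ⟨X, h1, h2, h3, h4⟩
    refine ⟨?_, nec_rat ρ c X h1 h2.nonempty h3 h4⟩
    by_contra h
    obtain rfl : d = 1 := by omega
    exact h2 ((nec_dim ρ c).subset h1)
  · rintro ⟨h, q, hq⟩
    exact suff d h ρ hρ q hq c

end Pool.Agent.H721Z.RS
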